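import Mathlib
import Pool.Agent.H989R3.PZero.Final

set_option autoImplicit false

open Pool.Agent.H989R3.PZero

namespace Pool.Agent.Results.MP_9cbe1e_gt.InvariantsKilled

/-- Every invariant of positive degree in the target of the F-isomorphism is killed by `P^0`. -/
theorem result (p : ℕ) [Fact p.Prime] (e : ℕ) (f : MvPolynomial (ℕ × ℕ) (ZMod p))
    (hf : Invariant p e f) (h0 : MvPolynomial.constantCoeff f = 0) :
    PZ p f ∈ Ideal.span (rels p) :=
  main p (Fact.out : p.Prime).one_lt e f hf h0

end Pool.Agent.Results.MP_9cbe1e_gt.InvariantsKilled
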